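import Pool.Agent.K6.H34.TT.Stm

/-! Piece AVHR of project TT (helper34): the average of a multiplicative function close to one in a
residue class. -/

set_option autoImplicit false

namespace Pool.Agent.K6.H43.TT

open Finset

theorem card_class (X m d r : ℕ) (hm : 1 ≤ m) (hd : 1 ≤ d) (hmd : m.Coprime d) :
    (((Icc 1 X).filter (fun v => v ≡ r [MOD m] ∧ d ∣ v)).card : ℝ) ≤
      (X : ℝ) / (m * d) + ((X : ℝ) / d) ^ (1 / 2 : ℝ) := by
  have hd' : (0 : ℝ) < d := by exact_mod_cast hd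
  have hm' : (0 : ℝ) < m := by exact_mod_cast hm
  rcases lt_or_ge X d with hXd | hXd
  · have h0 : (Icc 1 X).filter (fun v => v ≡ r [MOD m] ∧ d ∣ v) = ∅ := by
      rw [filter_eq_empty_iff]
      rintro v hv ⟨-, h2⟩
      rw [mem_Icc] at hv
      have := Nat.le_of_dvd (by omega) h2
      omega
    rw [h0, card_empty, Nat.cast_zero]
    positivity
  · obtain ⟨k, hk1, hk2⟩ := Nat.chineseRemainder hmd r 0
    have hsub : (Icc 1 X).filter (fun v => v ≡ r [MOD m] ∧ d ∣ v) ⊆
        (Ioc 0 X).filter (fun v => v ≡ k [MOD m * d]) := by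
      intro v hv
      rw [mem_filter, mem_Icc] at hv
      rw [mem_filter, mem_Ioc]
      refine ⟨⟨by omega, hv.1.2⟩, ?_⟩
      rw [← Nat.modEq_and_modEq_iff_modEq_mul hmd]
      refine ⟨hv.2.1.trans hk1.symm, ?_⟩
      exact ((Nat.modEq_zero_iff_dvd.2 hv.2.2)).trans hk2.symm
    have h1 : (((Ioc 0 X).filter (fun v => v ≡ k [MOD m * d])).card : ℝ) ≤
        (X : ℝ) / (m * d) + 1 := by
      have hmd0 : 0 < m * d := Nat.mul_pos hm hd
      have h2 := Nat.Ioc_filter_modEq_card (a := 0) (b := X) hmd0 k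
      have h3 : (((Ioc 0 X).filter (fun v => v ≡ k [MOD m * d])).card : ℤ) ≤
          ⌊((X : ℚ) - k) / ((m * d : ℕ) : ℚ)⌋ - ⌊(((0 : ℕ) : ℚ) - k) / ((m * d : ℕ) : ℚ)⌋ ∨
          (((Ioc 0 X).filter (fun v => v ≡ k [MOD m * d])).card : ℤ) ≤ 0 := by
        rw [h2]
        rcases le_total (⌊((X : ℚ) - k) / ((m * d : ℕ) : ℚ)⌋ -
          ⌊(((0 : ℕ) : ℚ) - k) / ((m * d : ℕ) : ℚ)⌋) 0 with h | h
        · exact Or.inr (by rw [max_eq_right h])
        · exact Or.inl (by rw [max_eq_left h])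
      rcases h3 with h3 | h3
      · have h4 : ((((Ioc 0 X).filter (fun v => v ≡ k [MOD m * d])).card : ℤ) : ℚ) ≤
            (X : ℚ) / ((m * d : ℕ) : ℚ) + 1 := by
          have h5 : ((((Ioc 0 X).filter (fun v => v ≡ k [MOD m * d])).card : ℤ) : ℚ) ≤
            ((⌊((X : ℚ) - k) / ((m * d : ℕ) : ℚ)⌋ -
              ⌊(((0 : ℕ) : ℚ) - k) / ((m * d : ℕ) : ℚ)⌋ : ℤ) : ℚ) := by exact_mod_cast h3
          push_cast at h5 ⊢
          have h6 := Int.floor_le (((X : ℚ) - k) / ((m : ℚ) * d))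
          have h7 := Int.lt_floor_add_one ((((0 : ℕ) : ℚ) - k) / ((m : ℚ) * d))
          push_cast at h7
          have h8 : ((X : ℚ) - k) / ((m : ℚ) * d) = (X : ℚ) / ((m : ℚ) * d) +
            (0 - k) / ((m : ℚ) * d) := by ring
          linarith
        have h9 : ((((((Ioc 0 X).filter (fun v => v ≡ k [MOD m * d])).card : ℤ) : ℚ)) : ℝ) ≤
            (((X : ℚ) / ((m * d : ℕ) : ℚ) + 1 : ℚ) : ℝ) := by exact_mod_cast h4
        push_cast at h9
        exact h9
      · have h4 : (((Ioc 0 X).filter (fun v => v ≡ k [MOD m * d])).card : ℝ) ≤ 0 := by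
          exact_mod_cast h3
        have : (0 : ℝ) ≤ (X : ℝ) / (m * d) + 1 := by positivity
        linarith
    have h2 : (1 : ℝ) ≤ ((X : ℝ) / d) ^ (1 / 2 : ℝ) := by
      apply Real.one_le_rpow _ (by norm_num)
      rw [le_div_iff₀ hd', one_mul]
      exact_mod_cast hXd
    calc (((Icc 1 X).filter (fun v => v ≡ r [MOD m] ∧ d ∣ v)).card : ℝ)
        ≤ (((Ioc 0 X).filter (fun v => v ≡ k [MOD m * d])).card : ℝ) := by
          exact_mod_cast card_le_card hsub
      _ ≤ (X : ℝ) / (m * d) + 1 := h1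
      _ ≤ _ := by linarith

theorem avhr : Pool.Agent.K6.H34.TT.AVHR := by
  intro c z hz
  have hsq : Summable (fun n : ℕ => 1 / (n : ℝ) ^ 2) := Real.summable_one_div_nat_pow.2 (by norm_num)
  have hs3 : Summable (fun n : ℕ => 1 / (n : ℝ) ^ (3 / 2 : ℝ)) :=
    Real.summable_one_div_nat_rpow.2 (by norm_num)
  set S2 : ℝ := ∑' n : ℕ, 1 / (n : ℝ) ^ 2 with hS2
  set S3 : ℝ := ∑' n : ℕ, 1 / (n : ℝ) ^ (3 / 2 : ℝ) with hS3
  refine ⟨Real.exp (2 * c * S2) + Real.exp (2 * c * S3), by positivity, ?_⟩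
  intro X m r hm hmX
  set Pr : Finset ℕ := (Icc 1 X).filter (fun p => p.Prime ∧ z < p ∧ ¬ p ∣ m) with hPr
  set g : ℕ → ℝ := fun p => (c : ℝ) / ((p : ℝ) - c) with hg
  have hpc : ∀ p ∈ Pr, (p : ℝ) / 2 ≤ (p : ℝ) - c ∧ 0 < (p : ℝ) := by
    intro p hp
    rw [hPr, mem_filter] at hp
    have h1 : 2 * c + 2 < p := lt_of_le_of_lt hz hp.2.2.1
    have h2 : 2 * (c : ℝ) + 2 < p := by exact_mod_cast h1
    have h3 : (0 : ℝ) ≤ c := Nat.cast_nonneg c
    exact ⟨by linarith, by linarith⟩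
  have hg0 : ∀ p ∈ Pr, 0 ≤ g p := by
    intro p hp
    have := hpc p hp
    exact div_nonneg (Nat.cast_nonneg c) (by linarith)
  have hgle : ∀ p ∈ Pr, g p ≤ 2 * c / p := by
    intro p hp
    have h2 := hpc p hp
    simp only [hg]
    calc (c : ℝ) / ((p : ℝ) - c) ≤ c / ((p : ℝ) / 2) :=
          div_le_div_of_nonneg_left (Nat.cast_nonneg c) (by linarith [h2.2]) h2.1
      _ = 2 * c / p := by
          have := h2.2.ne'
          field_simp
  -- expansion
  have hexp : ∀ v ∈ (Icc 1 X).filter (fun v => v ≡ r [MOD m]),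
      ∏ p ∈ v.primeFactors.filter (fun p => z < p ∧ ¬ p ∣ m),
      (p : ℝ) / ((p : ℝ) - c) = ∑ T ∈ Pr.powerset,
        if T ⊆ v.primeFactors.filter (fun p => z < p ∧ ¬ p ∣ m) then ∏ p ∈ T, g p else 0 := by
    intro v hv
    rw [mem_filter, mem_Icc] at hv
    have hsub : v.primeFactors.filter (fun p => z < p ∧ ¬ p ∣ m) ⊆ Pr := by
      intro p hp
      rw [mem_filter, Nat.mem_primeFactors] at hp
      rw [hPr, mem_filter, mem_Icc]
      have := Nat.le_of_dvd (by omega) hp.1.2.1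
      exact ⟨⟨hp.1.1.one_le, by omega⟩, hp.1.1, hp.2⟩
    have h1 : ∏ p ∈ v.primeFactors.filter (fun p => z < p ∧ ¬ p ∣ m), (p : ℝ) / ((p : ℝ) - c)
        = ∏ p ∈ v.primeFactors.filter (fun p => z < p ∧ ¬ p ∣ m), (1 + g p) := by
      apply prod_congr rfl
      intro p hp
      have h2 := hpc p (hsub hp)
      have h3 : (p : ℝ) - c ≠ 0 := by
        have := h2.1
        have := h2.2
        linarith
      simp only [hg]
      field_simp
      ring
    rw [h1, prod_one_add, ← sum_filter]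
    apply sum_congr _ (fun _ _ => rfl)
    ext T
    simp only [mem_powerset, mem_filter]
    exact ⟨fun h => ⟨h.trans hsub, h⟩, fun h => h.2⟩
  rw [sum_congr rfl hexp, sum_comm]
  have hX0 : (0 : ℝ) ≤ X := Nat.cast_nonneg X
  -- each subset
  have hT : ∀ T ∈ Pr.powerset, (∑ v ∈ (Icc 1 X).filter (fun v => v ≡ r [MOD m]),
      if T ⊆ v.primeFactors.filter (fun p => z < p ∧ ¬ p ∣ m) then ∏ p ∈ T, g p else 0)
      ≤ (X / m) * ∏ p ∈ T, (g p / p) +
        (X : ℝ) ^ (1 / 2 : ℝ) * ∏ p ∈ T, (g p / (p : ℝ) ^ (1 / 2 : ℝ)) := by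
    intro T hT
    rw [mem_powerset] at hT
    rw [← sum_filter, sum_const, nsmul_eq_mul]
    have hG0 : 0 ≤ ∏ p ∈ T, g p := prod_nonneg fun p hp => hg0 p (hT hp)
    have hne : ∏ p ∈ T, p ≠ 0 := by
      apply prod_ne_zero_iff.2
      intro p hp
      have := (mem_filter.1 (hT hp)).2.1
      exact this.ne_zero
    have hcop : m.Coprime (∏ p ∈ T, p) := by
      apply Nat.Coprime.prod_right
      intro p hp
      have h1 := (mem_filter.1 (hT hp)).2
      exact ((Nat.Prime.coprime_iff_not_dvd h1.1).2 h1.2.2).symm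
    have hcard : ((((Icc 1 X).filter (fun v => v ≡ r [MOD m])).filter
        (fun v => T ⊆ v.primeFactors.filter (fun p => z < p ∧ ¬ p ∣ m))).card : ℝ)
        ≤ (X : ℝ) / (m * ((∏ p ∈ T, p : ℕ) : ℝ)) +
          ((X : ℝ) / ((∏ p ∈ T, p : ℕ) : ℝ)) ^ (1 / 2 : ℝ) := by
      refine le_trans ?_ (card_class X m _ r hm (Nat.one_le_iff_ne_zero.2 hne) hcop)
      norm_cast
      apply card_le_card
      intro v hv
      rw [mem_filter, mem_filter] at hv
      rw [mem_filter]
      refine ⟨hv.1.1, hv.1.2, ?_⟩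
      apply prod_primes_dvd
      · intro p hp
        exact ((mem_filter.1 (hT hp)).2.1).prime
      · intro p hp
        have := hv.2 hp
        rw [mem_filter, Nat.mem_primeFactors] at this
        exact this.1.2.1
    refine (mul_le_mul_of_nonneg_right hcard hG0).trans (le_of_eq ?_)
    have e : ∏ p ∈ T, (g p / (p : ℝ)) = (∏ p ∈ T, g p) / ∏ p ∈ T, (p : ℝ) :=
      prod_div_distrib g (fun p : ℕ => (p : ℝ))
    have e2 : ∏ p ∈ T, (g p / (p : ℝ) ^ (1 / 2 : ℝ)) =
        (∏ p ∈ T, g p) / (∏ p ∈ T, (p : ℝ)) ^ (1 / 2 : ℝ) := by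
      rw [← Real.finsetProd_rpow T (fun p : ℕ => (p : ℝ)) (fun p _ => Nat.cast_nonneg p)]
      exact prod_div_distrib g (fun p : ℕ => (p : ℝ) ^ (1 / 2 : ℝ))
    rw [e, e2, add_mul]
    congr 1
    · push_cast
      rw [div_mul_eq_div_div]
      ring
    · rw [Real.div_rpow hX0 (Nat.cast_nonneg _)]
      push_cast
      ring
  refine (sum_le_sum hT).trans ?_
  rw [sum_add_distrib, ← mul_sum, ← mul_sum, ← prod_one_add, ← prod_one_add, add_mul]
  have hXm : (0 : ℝ) ≤ X / m := by positivity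
  have hm' : (0 : ℝ) < m := by exact_mod_cast hm
  refine add_le_add ?_ ?_
  · rw [mul_comm]
    apply mul_le_mul_of_nonneg_right _ hXm
    calc ∏ p ∈ Pr, (1 + g p / p) ≤ ∏ p ∈ Pr, Real.exp (2 * c * (1 / (p : ℝ) ^ 2)) := by
          apply prod_le_prod
          · intro p hp
            have := hg0 p hp
            have := (hpc p hp).2
            positivity
          · intro p hp
            have h2 := hpc p hp
            have h3 : g p / p ≤ 2 * c * (1 / (p : ℝ) ^ 2) := by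
              calc g p / p ≤ 2 * c / p / p := div_le_div_of_nonneg_right (hgle p hp) h2.2.le
                _ = 2 * c * (1 / (p : ℝ) ^ 2) := by
                  have := h2.2.ne'
                  field_simp
            have h4 := Real.add_one_le_exp (2 * c * (1 / (p : ℝ) ^ 2))
            linarith
      _ = Real.exp (∑ p ∈ Pr, 2 * c * (1 / (p : ℝ) ^ 2)) := (Real.exp_sum _ _).symm
      _ ≤ Real.exp (2 * c * S2) := by
          apply Real.exp_le_exp.2
          rw [← mul_sum]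
          apply mul_le_mul_of_nonneg_left _ (by positivity)
          exact hsq.sum_le_tsum Pr (fun n _ => by positivity)
  · have hroot : (X : ℝ) ^ (1 / 2 : ℝ) ≤ X / m := by
      have hmX' : (m : ℝ) ^ 2 ≤ X := by exact_mod_cast hmX
      rw [← Real.sqrt_eq_rpow, le_div_iff₀ hm']
      have h5 : (m : ℝ) ≤ √(X : ℝ) := Real.le_sqrt_of_sq_le hmX'
      calc √(X : ℝ) * m ≤ √(X : ℝ) * √(X : ℝ) :=
            mul_le_mul_of_nonneg_left h5 (Real.sqrt_nonneg _)
        _ = X := Real.mul_self_sqrt hX0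
    have hprod : ∏ p ∈ Pr, (1 + g p / (p : ℝ) ^ (1 / 2 : ℝ)) ≤ Real.exp (2 * c * S3) := by
      calc ∏ p ∈ Pr, (1 + g p / (p : ℝ) ^ (1 / 2 : ℝ)) ≤
            ∏ p ∈ Pr, Real.exp (2 * c * (1 / (p : ℝ) ^ (3 / 2 : ℝ))) := by
            apply prod_le_prod
            · intro p hp
              have := hg0 p hp
              have := (hpc p hp).2
              positivity
            · intro p hp
              have h2 := hpc p hp
              have h6 : (p : ℝ) ^ (3 / 2 : ℝ) = p * (p : ℝ) ^ (1 / 2 : ℝ) := by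
                rw [show (3 / 2 : ℝ) = 1 + 1 / 2 by norm_num, Real.rpow_add h2.2, Real.rpow_one]
              have h7 : (0 : ℝ) < (p : ℝ) ^ (1 / 2 : ℝ) := Real.rpow_pos_of_pos h2.2 _
              have h3 : g p / (p : ℝ) ^ (1 / 2 : ℝ) ≤ 2 * c * (1 / (p : ℝ) ^ (3 / 2 : ℝ)) := by
                calc g p / (p : ℝ) ^ (1 / 2 : ℝ) ≤ 2 * c / p / (p : ℝ) ^ (1 / 2 : ℝ) :=
                      div_le_div_of_nonneg_right (hgle p hp) h7.le
                  _ = 2 * c * (1 / (p : ℝ) ^ (3 / 2 : ℝ)) := by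
                    rw [h6]
                    have := h2.2.ne'
                    field_simp
              have h4 := Real.add_one_le_exp (2 * c * (1 / (p : ℝ) ^ (3 / 2 : ℝ)))
              linarith
        _ = Real.exp (∑ p ∈ Pr, 2 * c * (1 / (p : ℝ) ^ (3 / 2 : ℝ))) := (Real.exp_sum _ _).symm
        _ ≤ Real.exp (2 * c * S3) := by
            apply Real.exp_le_exp.2
            rw [← mul_sum]
            apply mul_le_mul_of_nonneg_left _ (by positivity)
            exact hs3.sum_le_tsum Pr (fun n _ => by positivity)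
    calc (X : ℝ) ^ (1 / 2 : ℝ) * ∏ p ∈ Pr, (1 + g p / (p : ℝ) ^ (1 / 2 : ℝ))
        ≤ (X / m) * Real.exp (2 * c * S3) := by
          apply mul_le_mul hroot hprod _ hXm
          apply prod_nonneg
          intro p hp
          have := hg0 p hp
          have := (hpc p hp).2
          positivity
      _ = _ := mul_comm _ _

end Pool.Agent.K6.H43.TT
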