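import Pool.Agent.K6.H34.TT.Stm

/-! Piece SGN of project TT (helper34): the number of the residues with given symbols. -/

set_option autoImplicit false

namespace Pool.Agent.K6.H43.TT

open Finset

theorem half (p : ℕ) [hp : Fact p.Prime] (h2 : p ≠ 2) (κ : ℤ) (hκ : ¬ (p : ℤ) ∣ κ) (e : ℤ)
    (he : e = 1 ∨ e = -1) :
    ((univ.filter (fun x : ZMod p => quadraticChar (ZMod p) ((κ : ZMod p) * x) = e)).card : ℝ) ≤
      p * (1 / 2) := by
  classical
  have hchar : ringChar (ZMod p) ≠ 2 := by rw [ZMod.ringChar_zmod_n]; exact h2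
  have hκ0 : (κ : ZMod p) ≠ 0 := by rwa [Ne, ZMod.intCast_zmod_eq_zero_iff_dvd]
  have hsum : ∑ x : ZMod p, quadraticChar (ZMod p) ((κ : ZMod p) * x) = 0 := by
    rw [← quadraticChar_sum_zero hchar]
    exact Fintype.sum_equiv (Equiv.mulLeft₀ (κ : ZMod p) hκ0) _ _ fun x => rfl
  have hsplit : ∑ x : ZMod p, quadraticChar (ZMod p) ((κ : ZMod p) * x) =
      ((univ.filter (fun x : ZMod p => quadraticChar (ZMod p) ((κ : ZMod p) * x) = 1)).card : ℤ) -
      ((univ.filter (fun x : ZMod p => quadraticChar (ZMod p) ((κ : ZMod p) * x) = -1)).card : ℤ) := by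
    rw [card_filter, card_filter, Nat.cast_sum, Nat.cast_sum, ← sum_sub_distrib]
    refine sum_congr rfl fun x _ => ?_
    by_cases hx : (κ : ZMod p) * x = 0
    · rw [hx, quadraticChar_zero]
      simp
    · rcases quadraticChar_dichotomy hx with h | h <;> rw [h] <;> simp
  have hdisj : Disjoint (univ.filter (fun x : ZMod p =>
      quadraticChar (ZMod p) ((κ : ZMod p) * x) = 1))
      (univ.filter (fun x : ZMod p => quadraticChar (ZMod p) ((κ : ZMod p) * x) = -1)) := by
    rw [Finset.disjoint_left]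
    intro x h1 h2
    rw [mem_filter] at h1 h2
    rw [h1.2] at h2
    exact absurd h2.2 (by norm_num)
  have hcard := card_union_of_disjoint hdisj
  have hle : (univ.filter (fun x : ZMod p =>
      quadraticChar (ZMod p) ((κ : ZMod p) * x) = 1) ∪
      univ.filter (fun x : ZMod p => quadraticChar (ZMod p) ((κ : ZMod p) * x) = -1)).card ≤ p := by
    refine (card_le_univ _).trans ?_
    rw [ZMod.card]
  have h3 : 2 * (univ.filter (fun x : ZMod p =>
      quadraticChar (ZMod p) ((κ : ZMod p) * x) = e)).card ≤ p := by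
    rcases he with rfl | rfl <;> omega
  have h4 : (2 : ℝ) * ((univ.filter (fun x : ZMod p =>
      quadraticChar (ZMod p) ((κ : ZMod p) * x) = e)).card : ℝ) ≤ p := by exact_mod_cast h3
  linarith

theorem sgn : Pool.Agent.K6.H34.TT.SGN := by
  classical
  intro M κ E hM hodd hκ
  have hM0 : M ≠ 0 := hM.ne_zero
  have hne : NeZero M := ⟨hM0⟩
  let ι := {p // p ∈ M.primeFactors}
  have hprime : ∀ i : ι, Fact (i : ℕ).Prime := fun i => ⟨Nat.prime_of_mem_primeFactors i.2⟩
  have hprod : ∏ i : ι, (i : ℕ) = M := by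
    rw [Finset.prod_coe_sort M.primeFactors (fun p => p)]
    exact Nat.prod_primeFactors_of_squarefree hM
  have hcop : Pairwise (Function.onFun Nat.Coprime fun i : ι => (i : ℕ)) := by
    intro i j hij
    exact (Nat.coprime_primes (hprime i).out (hprime j).out).2 fun h => hij (Subtype.ext h)
  let sg : ι → ℤ := fun i => if (i : ℕ) ∈ E then -1 else 1
  have hsg : ∀ i, sg i = 1 ∨ sg i = -1 := fun i => by
    simp only [sg]
    split_ifs
    · exact Or.inr rfl
    · exact Or.inl rfl
  let A : (i : ι) → Finset (ZMod i) := fun i =>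
    univ.filter (fun x : ZMod i => quadraticChar (ZMod i) ((κ i : ZMod i) * x) = sg i)
  have hcount : ((range M).filter (fun r : ℕ => ∀ p ∈ M.primeFactors,
      jacobiSym (κ p * r) p = if p ∈ E then -1 else 1)).card ≤ (Fintype.piFinset A).card := by
    refine card_le_card_of_injOn (fun r i => ((r : ℕ) : ZMod i)) ?_ ?_
    · intro r hr
      rw [mem_coe, mem_filter] at hr
      rw [mem_coe, Fintype.mem_piFinset]
      intro i
      rw [mem_filter]
      refine ⟨mem_univ _, ?_⟩
      have h1 := hr.2 i i.2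
      have hp := hprime i
      rw [← jacobiSym.legendreSym.to_jacobiSym] at h1
      rw [legendreSym] at h1
      push_cast at h1
      exact h1
    · intro r hr r' hr' h
      rw [mem_coe, mem_filter, mem_range] at hr hr'
      have h1 : ∀ i : ι, r ≡ r' [MOD i] := fun i => (ZMod.natCast_eq_natCast_iff _ _ _).1 (congrFun h i)
      have h2 : r ≡ r' [MOD M] := by
        rw [← hprod]
        rw [Nat.modEq_iff_dvd]
        push_cast
        refine Fintype.prod_dvd_of_coprime (fun i j hij => ?_) fun i => ?_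
        · exact Nat.isCoprime_iff_coprime.2 (hcop hij)
        · exact (Nat.modEq_iff_dvd.1 (h1 i))
      exact Nat.ModEq.eq_of_lt_of_lt h2 hr.1 hr'.1
  have hA : ∀ i, ((A i).card : ℝ) ≤ (i : ℕ) * (1 / 2) := by
    intro i
    have hp := hprime i
    refine half i ?_ (κ i) (hκ i i.2) (sg i) (hsg i)
    intro h
    have h1 : (i : ℕ) ∣ M := Nat.dvd_of_mem_primeFactors i.2
    rw [h] at h1
    exact (Nat.not_even_iff_odd.2 hodd) (even_iff_two_dvd.2 h1)
  calc ((((range M).filter (fun r : ℕ => ∀ p ∈ M.primeFactors,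
      jacobiSym (κ p * r) p = if p ∈ E then -1 else 1)).card : ℕ) : ℝ)
      ≤ (((Fintype.piFinset A).card : ℕ) : ℝ) := by exact_mod_cast hcount
    _ = ∏ i, ((A i).card : ℝ) := by
        rw [Fintype.card_piFinset]
        push_cast
        rfl
    _ ≤ ∏ i : ι, ((i : ℕ) * (1 / 2) : ℝ) := prod_le_prod (fun i _ => Nat.cast_nonneg _) fun i _ => hA i
    _ = M * (1 / 2) ^ M.primeFactors.card := by
        rw [prod_mul_distrib, prod_const, card_univ, Fintype.card_coe]
        congr 1
        have h := congrArg (Nat.cast : ℕ → ℝ) hprod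
        push_cast at h
        exact h

end Pool.Agent.K6.H43.TT
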